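import Pool.Agent.H30GR.Grow
import Pool.Agent.H30GR.Low5

/-!
# Rank and 2-torsion of the Tate-Shafarevich group over all quadratic fields of odd discriminant, for a
# positive proportion of all elliptic curves

`E : y ^ 2 = x ^ 3 + A x + B` is an elliptic curve over `ℚ`.  A number field `K` is admissible for `E` if

* `K/ℚ` is Galois and its degree is a power of two, and `2` is unramified in `K`;
* the primes which are ramified in `K` do not divide `4 A ^ 3 + 27 B ^ 2` (good reduction);
* the odd primes which divide `A` and `B` split completely in `K`.

There is no condition on the decomposition in `K` of `2`, of the infinite place and of the primes of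
multiplicative reduction (`2` and the primes of bad reduction are unramified in `K`).

Theorem: for a positive proportion of all elliptic curves over `ℚ` the following holds for ALL admissible
fields `K`:

`∏ #E(𝔽_p)[2] ≤ 2 ^ (rank E(K)) * #Ш(E/K)[2] ≤ (∏ #E(𝔽_p)[2]) ^ ([K : ℚ] - 1)`,

the products over the primes `p` which are ramified in `K`. In particular for ALL admissible quadratic
fields `K` there is the exact formula

`2 ^ (rank E(K)) * #Ш(E/K)[2] = ∏_{p ramified in K} #E(𝔽_p)[2]`.

The middle term is also the order of the 2-Selmer group `Sel_2(E/K)`.  A given field `K₀`, Galois over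
`ℚ` of degree a power of two and unramified at `2`, can be made admissible for all the curves.

Proof.  The curves are `y ^ 2 = x ^ 3 + a D ^ 2 x + b D ^ 3` with squarefree `4 a ^ 3 + 27 b ^ 2` such
that the classes over `ℚ` in the kernel of the norm of the cubic field `L`, with the local conditions at
the primes dividing `D`, at `2` and even valuations elsewhere, are trivial (files of the project PQ of the
library, geometry of numbers and counting).  If the conditions at the ramified primes are dropped, there
are at most `∏ #E(𝔽_p)[2]` classes (`H30GR/Base`).  The local conditions over `K` descend to those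
over `ℚ` (`H30GR/TopR`), and the descent along quadratic extensions is done with counting, both for the
relaxed and for the strict conditions (`H30GR/Qs`, `H30GR/Nm`).  The lower bound (`H30GR/Low1` to `Low5`,
helper16): the number of the classes over `ℚ` with no condition at the ramified primes is bounded below by
the theorem on the units of the cubic field, and over `K` they are Selmer classes.  The formula for
the order of the 2-Selmer group is the exact sequence `E(K)/2 → Sel_2 → Ш[2]` with the theorem of
Mordell-Weil (`H30GR/Seq`).
-/

set_option autoImplicit false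

open NumberField Filter

namespace Pool.Agent.Results.MP_f50388_nt.AllQuadraticFieldsExactOrder

open Pool.Agent.H30EV (Curves Ramified curve Pts)
open Pool.Agent.H30GR

/-- The conclusions for the curve `q = (A, B)` and the number field `K`. `Sha` and `Sel2` are the
Tate-Shafarevich group and the 2-Selmer group, `Pts (curve K q) K = E(K)`, and `ramProd K q` is the product
of the `#E(𝔽_p)[2]` over the primes which are ramified in `K`. -/
structure Conclusion (K : Type) [Field K] [NumberField K] (q : ℤ × ℤ) : Prop where
  quadratic : Module.finrank ℚ K = 2 →
    2 ^ Module.finrank ℤ (Pts (curve K q) K) * Nat.card {x : Sha (curve K q) // 2 • x = 0} =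
      ramProd K q
  lower : ramProd K q ≤
    2 ^ Module.finrank ℤ (Pts (curve K q) K) * Nat.card {x : Sha (curve K q) // 2 • x = 0}
  upper : 2 ^ Module.finrank ℤ (Pts (curve K q) K) * Nat.card {x : Sha (curve K q) // 2 • x = 0} ≤
    ramProd K q ^ (Module.finrank ℚ K - 1)
  selmer : Nat.card (Sel2 (curve K q)) =
    2 ^ Module.finrank ℤ (Pts (curve K q) K) * Nat.card {x : Sha (curve K q) // 2 • x = 0}

theorem result (K₀ : Type) [Field K₀] [NumberField K₀] (hgal : IsGalois ℚ K₀)
    (hdeg : ∃ n : ℕ, Module.finrank ℚ K₀ = 2 ^ n) (htwo : ¬ Ramified K₀ 2) :
    ∃ c : ℝ, 0 < c ∧ ∀ᶠ X : ℕ in atTop, 0 < (Curves X).ncard ∧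
      c * ((Curves X).ncard : ℝ) ≤ ({q ∈ Curves X | Admissible K₀ q ∧
        ∀ (K : Type) [Field K] [NumberField K], Admissible K q → Conclusion K q}.ncard : ℝ) := by
  obtain ⟨n, hn⟩ := hdeg
  obtain ⟨c, hc, h⟩ := main_growth low K₀ hn htwo
  refine ⟨c, hc, ?_⟩
  filter_upwards [h] with X hX
  refine ⟨hX.1, hX.2.trans ?_⟩
  have hsub : {q ∈ Curves X | Admissible K₀ q ∧
        ∀ (K : Type) [Field K] [NumberField K], Admissible K q → Growth K q} ⊆
      {q ∈ Curves X | Admissible K₀ q ∧
        ∀ (K : Type) [Field K] [NumberField K], Admissible K q → Conclusion K q} := by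
    rintro q ⟨h1, h2, h3⟩
    refine ⟨h1, h2, fun K _ _ hK => ?_⟩
    have hg := h3 K hK
    refine ⟨fun h4 => ?_, ?_, ?_, hg.formula⟩
    · rw [← hg.formula]
      have h5 := hg.up
      rw [h4, pow_one] at h5
      exact le_antisymm h5 hg.low
    · rw [← hg.formula]
      exact hg.low
    · rw [← hg.formula]
      exact hg.up
  exact_mod_cast Set.ncard_le_ncard hsub ((Pool.Agent.H30EV.curves_fin X).subset fun q hq => hq.1)

end Pool.Agent.Results.MP_f50388_nt.AllQuadraticFieldsExactOrder
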