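import Pool.Agent.H30GR.Twq

/-!
# Rank and 2-torsion of the Tate-Shafarevich group of all quadratic twists: a bound without constants,
# for a positive proportion of all elliptic curves over `ℚ`

`E : y ^ 2 = x ^ 3 + A x + B` is an elliptic curve over `ℚ`. The twist `E^(d)` is good (`GoodTwist`) if `d`
is squarefree, not `3` modulo `4`, and the odd primes dividing `d` do not divide `4 A ^ 3 + 27 B ^ 2`.

Theorem: for a positive proportion of all elliptic curves over `ℚ` the following holds for ALL good
twists `E^(d)`: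

`2 ^ (rank E^(d)(ℚ)) * #Ш(E^(d)/ℚ)[2] ≤ ∏ #E(𝔽_p)[2]`,

the product over the odd primes `p` dividing `d`. The left side is the order of the 2-Selmer group
`Sel_2(E^(d)/ℚ)`.

Proof.  The curves are `y ^ 2 = x ^ 3 + a D ^ 2 x + b D ^ 3` with squarefree `4 a ^ 3 + 27 b ^ 2` such
that the classes in the kernel of the norm of the cubic field, with the local condition at `2` and even
valuations elsewhere, are trivial (files of the project PQ of the library, geometry of numbers and
counting).  If the conditions at the primes dividing `d` are dropped, there are at most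
`∏ #E(𝔽_p)[2]` classes (`H30GR/Base`), and they contain the classes of the 2-Selmer group of the
twist (`H30GR/SelC`, `H30GR/Up`).  The formula for the order of the 2-Selmer group is the exact
sequence `E(ℚ)/2 → Sel_2 → Ш[2]` with the theorem of Mordell-Weil (`H30GR/Seq`).
-/

set_option autoImplicit false

open NumberField Filter

namespace Pool.Agent.Results.MP_e23604_nt.UniformBoundAllTwists

open Pool.Agent.H30EV (Curves curve twist Pts)
open Pool.Agent.H30GR

/-- The conclusions for the curve `q = (A, B)` and the twist by `d`: the 2-torsion of the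
Tate-Shafarevich group of the twist is finite; `2 ^ rank * #Ш[2]` is at most the product of the
`#E(𝔽_p)[2]` over the odd primes dividing `d`; and it is the order of the 2-Selmer group. -/
structure Bound (q : ℤ × ℤ) (d : ℤ) : Prop where
  finite : Finite {x : Sha (curve ℚ (twist q d)) // 2 • x = 0}
  bound : 2 ^ Module.finrank ℤ (Pts (curve ℚ (twist q d)) ℚ) *
    Nat.card {x : Sha (curve ℚ (twist q d)) // 2 • x = 0} ≤ twistProd q d
  selmer : Nat.card (Sel2 (curve ℚ (twist q d))) =
    2 ^ Module.finrank ℤ (Pts (curve ℚ (twist q d)) ℚ) *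
      Nat.card {x : Sha (curve ℚ (twist q d)) // 2 • x = 0}

theorem result : ∃ c : ℝ, 0 < c ∧ ∀ᶠ X : ℕ in atTop, 0 < (Curves X).ncard ∧
    c * ((Curves X).ncard : ℝ) ≤
      ({q ∈ Curves X | ∀ d : ℤ, GoodTwist q d → Bound q d}.ncard : ℝ) := by
  obtain ⟨c, hc, h⟩ := main_twist
  refine ⟨c, hc, ?_⟩
  filter_upwards [h] with X hX
  refine ⟨hX.1, hX.2.trans ?_⟩
  have hsub : {q ∈ Curves X |
        ∀ d : ℤ, GoodTwist q d → Finite (Sel2 (curve ℚ (twist q d))) ∧
          Nat.card (Sel2 (curve ℚ (twist q d))) ≤ twistProd q d ∧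
          Nat.card (Sel2 (curve ℚ (twist q d))) =
            2 ^ Module.finrank ℤ (Pts (curve ℚ (twist q d)) ℚ) *
              Nat.card {x : Sha (curve ℚ (twist q d)) // 2 • x = 0}} ⊆
      {q ∈ Curves X | ∀ d : ℤ, GoodTwist q d → Bound q d} := by
    rintro q ⟨h1, h2⟩
    refine ⟨h1, fun d hd => ?_⟩
    obtain ⟨h3, h4, h5⟩ := h2 d hd
    refine ⟨?_, by rw [← h5]; exact h4, h5⟩
    haveI := h3
    have h6 : Nat.card (Sel2 (curve ℚ (twist q d))) ≠ 0 := Nat.card_pos.ne'
    rw [h5] at h6
    exact Nat.finite_of_card_ne_zero (right_ne_zero_of_mul h6)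
  exact_mod_cast Set.ncard_le_ncard hsub ((Pool.Agent.H30EV.curves_fin X).subset fun q hq => hq.1)

end Pool.Agent.Results.MP_e23604_nt.UniformBoundAllTwists
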